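import Mathlib

set_option autoImplicit false

namespace Pool.Agent.Results.MP_d572aa_gt.Door

open Set MeasureTheory Matrix Real

def D : Set (ℝ × ℝ) := {p | |p.1| ≤ 3 / 4 ∧ |p.2| ≤ 1 - |p.1|}

def K : Set (Fin 3 → ℝ) := {x | 10 * |x 0| ≤ 5 + x 2 ∧ 10 * |x 1| ≤ 5 - x 2}

lemma int_lin (a b c d : ℝ) : ∫ x in a..b, (c + d * x) = c * (b - a) + d * (b ^ 2 - a ^ 2) / 2 := by
  rw [intervalIntegral.integral_add (Continuous.intervalIntegrable (by fun_prop) _ _)
    (Continuous.intervalIntegrable (by fun_prop) _ _), intervalIntegral.integral_const_mul,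
    integral_id, intervalIntegral.integral_const, smul_eq_mul]
  ring

lemma vol_slice {a b : ℝ} {f g : ℝ → ℝ} (hf : Continuous f) (hg : Continuous g) (hab : a ≤ b)
    (h : ∀ x ∈ Icc a b, f x ≤ g x) :
    volume (regionBetween f g (Icc a b)) = ENNReal.ofReal (∫ x in a..b, (g x - f x)) := by
  rw [Measure.volume_eq_prod, volume_regionBetween_eq_integral hf.integrableOn_Icc
    hg.integrableOn_Icc measurableSet_Icc h, intervalIntegral.integral_of_le hab,
    ← integral_Icc_eq_integral_Ioc]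
  rfl

lemma vol_D : volume D ≤ ENNReal.ofReal (189 / 100) := by
  have h := vol_slice (a := -(3 / 4)) (b := 3 / 4) (f := fun x => -(201 / 200 - |x|))
    (g := fun x => 201 / 200 - |x|) (by fun_prop) (by fun_prop) (by norm_num)
    (fun x hx => by linarith [abs_le.2 hx])
  have h1 : ∫ x in (-(3 / 4) : ℝ)..0, (201 / 200 - |x| - -(201 / 200 - |x|)) = 189 / 200 := by
    rw [intervalIntegral.integral_congr (g := fun x => 201 / 100 + 2 * x) fun x hx => by
      rw [uIcc_of_le (by norm_num)] at hx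
      simp only [abs_of_nonpos hx.2]
      ring, int_lin]
    norm_num
  have h2 : ∫ x in (0 : ℝ)..3 / 4, (201 / 200 - |x| - -(201 / 200 - |x|)) = 189 / 200 := by
    rw [intervalIntegral.integral_congr (g := fun x => 201 / 100 + (-2) * x) fun x hx => by
      rw [uIcc_of_le (by norm_num)] at hx
      simp only [abs_of_nonneg hx.1]
      ring, int_lin]
    norm_num
  rw [← intervalIntegral.integral_add_adjacent_intervals (b := 0)
    (Continuous.intervalIntegrable (by fun_prop) _ _)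
    (Continuous.intervalIntegrable (by fun_prop) _ _), h1, h2] at h
  refine (measure_mono fun p hp => ?_).trans (h.trans (congrArg _ (by norm_num))).le
  have := abs_le.1 hp.2
  exact ⟨abs_le.1 hp.1, by linarith [this.1], by linarith [this.2]⟩

def T : Set (ℝ × ℝ) := regionBetween (fun _ => 0) (fun x => 1 - x) (Icc (0:ℝ) 1)

lemma vol_T : volume T = ENNReal.ofReal (1 / 2) := by
  refine (vol_slice (a := 0) (b := 1) (f := fun _ => 0) (g := fun x => 1 - x)
    (by fun_prop) (by fun_prop) (by norm_num) (fun x hx => by linarith [hx.2])).trans ?_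
  rw [intervalIntegral.integral_congr (g := fun x => 1 + (-1) * x) fun x _ => by ring, int_lin]
  norm_num

def dt (d z : ℝ × ℝ) : ℝ := d.1 * z.2 - d.2 * z.1

lemma tri {P : Set (ℝ × ℝ)} (hP : Convex ℝ P) {a d c : ℝ × ℝ} (h1 : a + d ∈ P) (h2 : a - d ∈ P)
    (h3 : c ∈ P) : ENNReal.ofReal (dt d (c - a)) ≤ volume (P ∩ {z | 0 < dt d (z - a)}) := by
  rcases le_or_gt (dt d (c - a)) 0 with h | h
  · rw [ENNReal.ofReal_of_nonpos h]
    exact zero_le
  let f : ℝ × ℝ →ₗ[ℝ] ℝ × ℝ := Matrix.toLin (Module.Basis.finTwoProd ℝ) (Module.Basis.finTwoProd ℝ)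
    !![2 * d.1, (c - a + d).1; 2 * d.2, (c - a + d).2]
  have hf : LinearMap.det f = 2 * dt d (c - a) := by
    simp [f, dt, Matrix.det_fin_two]
    ring
  have h4 := Measure.addHaar_image_linearMap (volume : Measure (ℝ × ℝ)) f T
  rw [hf, vol_T, ← ENNReal.ofReal_mul (abs_nonneg _), abs_of_nonneg (by linarith),
    ← measure_preimage_add _ (d - a)] at h4
  refine le_of_eq_of_le ((congrArg _ (by ring)).trans h4.symm) (measure_mono ?_)
  rintro z ⟨⟨s, t⟩, ⟨hs, ht⟩, e⟩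
  have e' : z = (1 - s - t) • (a - d) + s • (a + d) + t • c := by
    rw [show z = f (s, t) - (d - a) from eq_sub_of_add_eq' e.symm]
    ext <;> simp [f, Matrix.toLin_finTwoProd_apply] <;> ring
  refine ⟨?_, ?_⟩
  · rw [e']
    have := hP.sum_mem (t := Finset.univ) (w := ![1 - s - t, s, t]) (z := ![a - d, a + d, c])
      (fun i _ => by fin_cases i <;> simp <;> linarith [hs.1, ht.1, ht.2])
      (by simp only [Fin.sum_univ_three, cons_val]; ring) (fun i _ => by fin_cases i <;> simpa)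
    simpa [Fin.sum_univ_three] using this
  · have : dt d (z - a) = t * dt d (c - a) := by
      rw [e']
      simp [dt]
      ring
    exact (mul_pos ht.1 h).trans_eq this.symm

lemma quad {P : Set (ℝ × ℝ)} (hP : Convex ℝ P) {a d c c' : ℝ × ℝ} (h1 : a + d ∈ P)
    (h2 : a - d ∈ P) (h3 : c ∈ P) (h4 : c' ∈ P) :
    ENNReal.ofReal |dt d (c - c')| ≤ volume P := by
  wlog h : 0 ≤ dt d (c - c') generalizing c c'
  · have e : dt d (c - c') = -dt d (c' - c) := by simp [dt]; ring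
    rw [e, abs_neg]
    exact this h4 h3 (by linarith)
  have a1 := tri hP h1 h2 h3
  have a2 := tri hP (d := -d) (by simpa [← sub_eq_add_neg]) (by simpa) h4
  have hm : MeasurableSet {z : ℝ × ℝ | 0 < dt d (z - a)} :=
    (isOpen_lt continuous_const (by unfold dt; fun_prop)).measurableSet
  rw [← measure_inter_add_sdiff P hm, abs_of_nonneg h,
    show dt d (c - c') = dt d (c - a) + dt (-d) (c' - a) by simp [dt]; ring]
  refine ENNReal.ofReal_add_le.trans (add_le_add a1 (a2.trans (measure_mono fun z hz => ?_)))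
  have : dt (-d) (z - a) = -dt d (z - a) := by simp [dt]; ring
  have h5 : 0 < dt (-d) (z - a) := hz.2
  exact ⟨hz.1, fun h7 : 0 < dt d (z - a) => by linarith⟩

lemma convex_K : Convex ℝ K := by
  intro x hx y hy a b ha hb hab
  obtain ⟨h1, h2⟩ := hx
  obtain ⟨h3, h4⟩ := hy
  have k : ∀ i, |(a • x + b • y) i| ≤ a * |x i| + b * |y i| := fun i => by
    simpa [abs_mul, abs_of_nonneg ha, abs_of_nonneg hb] using abs_add_le (a * x i) (b * y i)
  have e : (a • x + b • y) 2 = a * x 2 + b * y 2 := rfl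
  constructor
  · nlinarith [k 0, mul_le_mul_of_nonneg_left h1 ha, mul_le_mul_of_nonneg_left h3 hb]
  · nlinarith [k 1, mul_le_mul_of_nonneg_left h2 ha, mul_le_mul_of_nonneg_left h4 hb]

lemma proj (e₁ e₂ : Fin 3 → ℝ) (h1 : e₁ ⬝ᵥ e₁ = 1) (h2 : e₂ ⬝ᵥ e₂ = 1) (h3 : e₁ ⬝ᵥ e₂ = 0) :
    volume D < volume ((fun x => (e₁ ⬝ᵥ x, e₂ ⬝ᵥ x)) '' K) := by
  let f : (Fin 3 → ℝ) →ₗ[ℝ] ℝ × ℝ := ((dotProductBilin ℝ ℝ) e₁).prod ((dotProductBilin ℝ ℝ) e₂)
  have hP : Convex ℝ ((fun x => (e₁ ⬝ᵥ x, e₂ ⬝ᵥ x)) '' K) := convex_K.linear_image f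
  set P := (fun x => (e₁ ⬝ᵥ x, e₂ ⬝ᵥ x)) '' K
  have v1 : (e₁ 2 * 5, e₂ 2 * 5) + (e₁ 0, e₂ 0) ∈ P :=
    ⟨![1, 0, 5], by simp [K]; norm_num, by simp [dotProduct, Fin.sum_univ_three, add_comm]⟩
  have v2 : (e₁ 2 * 5, e₂ 2 * 5) - (e₁ 0, e₂ 0) ∈ P :=
    ⟨![-1, 0, 5], by simp [K]; norm_num, by simp [dotProduct, Fin.sum_univ_three, neg_add_eq_sub]⟩
  have v3 : (-(e₁ 2 * 5), -(e₂ 2 * 5)) + (e₁ 1, e₂ 1) ∈ P :=
    ⟨![0, 1, -5], by simp [K]; norm_num, by simp [dotProduct, Fin.sum_univ_three, add_comm]⟩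
  have v4 : (-(e₁ 2 * 5), -(e₂ 2 * 5)) - (e₁ 1, e₂ 1) ∈ P :=
    ⟨![0, -1, -5], by simp [K]; norm_num, by
      simp [dotProduct, Fin.sum_univ_three, add_comm, sub_eq_add_neg]⟩
  have q1 := quad hP v1 v2 v3 v4
  have q2 := quad hP v1 v2 v1 v3
  have q3 := quad hP v1 v2 v1 v4
  have q4 := quad hP v3 v4 v3 v1
  have q5 := quad hP v3 v4 v3 v2
  by_contra hn
  have k : ∀ r : ℝ, ENNReal.ofReal |r| ≤ volume P → -(189 / 100) ≤ r ∧ r ≤ 189 / 100 := fun r h =>
    abs_le.1 ((ENNReal.ofReal_le_ofReal_iff (by norm_num)).1 (h.trans ((not_lt.1 hn).trans vol_D)))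
  have k1 := k _ q1
  have k2 := k _ q2
  have k3 := k _ q3
  have k4 := k _ q4
  have k5 := k _ q5
  simp only [dotProduct, Fin.sum_univ_three] at h1 h2 h3
  simp only [dt, Prod.mk_add_mk, Prod.mk_sub_mk] at k1 k2 k3 k4 k5
  set x := e₁ 1 * e₂ 2 - e₁ 2 * e₂ 1 with hx
  set y := e₁ 0 * e₂ 2 - e₁ 2 * e₂ 0 with hy
  set z := e₁ 0 * e₂ 1 - e₁ 1 * e₂ 0 with hz
  have l : x ^ 2 + y ^ 2 + z ^ 2 = 1 := by
    have : x ^ 2 + y ^ 2 + z ^ 2 = (e₁ 0 * e₁ 0 + e₁ 1 * e₁ 1 + e₁ 2 * e₁ 2) *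
      (e₂ 0 * e₂ 0 + e₂ 1 * e₂ 1 + e₂ 2 * e₂ 2) - (e₁ 0 * e₂ 0 + e₁ 1 * e₂ 1 + e₁ 2 * e₂ 2) ^ 2 := by
      rw [hx, hy, hz]; ring
    rw [this, h1, h2, h3]; norm_num
  have lx : x ^ 2 ≤ (1 / 5) ^ 2 := sq_le_sq' (by linarith [k4.1, k4.2, k5.1, k5.2])
    (by linarith [k4.1, k4.2, k5.1, k5.2])
  have ly : y ^ 2 ≤ (1 / 5) ^ 2 := sq_le_sq' (by linarith [k2.1, k2.2, k3.1, k3.2])
    (by linarith [k2.1, k2.2, k3.1, k3.2])
  have lz : z ^ 2 ≤ (189 / 200) ^ 2 := sq_le_sq' (by linarith [k1.1, k1.2]) (by linarith [k1.1, k1.2])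
  linarith

/-- A convex body that can be moved through a convex door although each of its plane projections
has larger area than the door. -/
theorem result :
    ∃ (K : Set (Fin 3 → ℝ)) (D : Set (ℝ × ℝ)),
      IsCompact K ∧ Convex ℝ K ∧ (interior K).Nonempty ∧
      IsCompact D ∧ Convex ℝ D ∧ (interior D).Nonempty ∧
      (∃ (R : unitInterval → Matrix (Fin 3) (Fin 3) ℝ) (v : unitInterval → Fin 3 → ℝ),
        Continuous R ∧ Continuous v ∧ (∀ t, R t ∈ Matrix.specialOrthogonalGroup (Fin 3) ℝ) ∧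
        (∀ x ∈ K, 0 < (R 0 *ᵥ x + v 0) 2) ∧ (∀ x ∈ K, (R 1 *ᵥ x + v 1) 2 < 0) ∧
        ∀ t, ∀ x ∈ K, (R t *ᵥ x + v t) 2 = 0 → ((R t *ᵥ x + v t) 0, (R t *ᵥ x + v t) 1) ∈ D) ∧
      ∀ e₁ e₂ : Fin 3 → ℝ, e₁ ⬝ᵥ e₁ = 1 → e₂ ⬝ᵥ e₂ = 1 → e₁ ⬝ᵥ e₂ = 0 →
        volume D < volume ((fun x => (e₁ ⬝ᵥ x, e₂ ⬝ᵥ x)) '' K) := by
  let θ : unitInterval → ℝ := fun t => π / 2 * min 1 (max 0 (3 * (t : ℝ) - 1))
  let h : unitInterval → ℝ := fun t => 6 * max (1 - 3 * (t : ℝ)) 0 - 6 * max (3 * (t : ℝ) - 2) 0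
  refine ⟨K, D, ?_, convex_K, ⟨0, mem_interior_iff_mem_nhds.2 ?_⟩, ?_, ?_,
    ⟨0, mem_interior_iff_mem_nhds.2 ?_⟩, ⟨fun t => !![cos (θ t), -sin (θ t), 0;
      sin (θ t), cos (θ t), 0; 0, 0, 1], fun t => ![0, 0, h t], ?_, by fun_prop, fun t => ?_,
      fun x hx => ?_, fun x hx => ?_, fun t x hx => ?_⟩, proj⟩
  · refine (isCompact_Icc (a := fun _ => -5) (b := fun _ => 5)).of_isClosed_subset
      (IsClosed.and (isClosed_le (by fun_prop) (by fun_prop))
        (isClosed_le (by fun_prop) (by fun_prop)))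
      fun x hx => ?_
    have := abs_nonneg (x 0)
    have := abs_nonneg (x 1)
    have := le_abs_self (x 0)
    have := le_abs_self (x 1)
    have := neg_abs_le (x 0)
    have := neg_abs_le (x 1)
    constructor <;> intro i <;> fin_cases i <;> simp <;> linarith [hx.1, hx.2]
  · refine Filter.mem_of_superset (((isOpen_lt (f := fun x : Fin 3 → ℝ => 10 * |x 0|)
      (g := fun x => 5 + x 2) (by fun_prop) (by fun_prop)).inter (isOpen_lt
      (f := fun x : Fin 3 → ℝ => 10 * |x 1|) (g := fun x => 5 - x 2) (by fun_prop)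
      (by fun_prop))).mem_nhds (by simp)) fun x hx => ⟨le_of_lt hx.1, le_of_lt hx.2⟩
  · refine ((isCompact_Icc (a := (-1:ℝ)) (b := 1)).prod (isCompact_Icc (a := (-1:ℝ)) (b := 1))).of_isClosed_subset
      (IsClosed.and (isClosed_le (by fun_prop) (by fun_prop))
        (isClosed_le (by fun_prop) (by fun_prop)))
      fun p hp => ⟨abs_le.1 (by linarith [hp.1]), abs_le.1 (by linarith [hp.2, abs_nonneg p.1])⟩
  · intro x hx y hy a b ha hb hab
    have k1 : |(a • x + b • y).1| ≤ a * |x.1| + b * |y.1| := by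
      simpa [abs_mul, abs_of_nonneg ha, abs_of_nonneg hb] using abs_add_le (a * x.1) (b * y.1)
    have k2 : |(a • x + b • y).2| ≤ a * |x.2| + b * |y.2| := by
      simpa [abs_mul, abs_of_nonneg ha, abs_of_nonneg hb] using abs_add_le (a * x.2) (b * y.2)
    constructor
    · nlinarith [mul_le_mul_of_nonneg_left hx.1 ha, mul_le_mul_of_nonneg_left hy.1 hb]
    · nlinarith [mul_le_mul_of_nonneg_left hx.2 ha, mul_le_mul_of_nonneg_left hy.2 hb]
  · refine Filter.mem_of_superset (((isOpen_lt (f := fun p : ℝ × ℝ => |p.1|)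
      (g := fun _ => 3 / 4) (by fun_prop) (by fun_prop)).inter (isOpen_lt
      (f := fun p : ℝ × ℝ => |p.2|) (g := fun p => 1 - |p.1|) (by fun_prop)
      (by fun_prop))).mem_nhds (by simp)) fun x hx => ⟨le_of_lt hx.1, le_of_lt hx.2⟩
  · refine continuous_matrix fun i j => ?_
    fin_cases i <;> fin_cases j <;> simp <;> fun_prop
  · refine Matrix.mem_specialOrthogonalGroup_iff.2 ⟨Matrix.mem_orthogonalGroup_iff _ _ |>.2 ?_, ?_⟩
    · ext i j
      fin_cases i <;> fin_cases j <;> simp [Matrix.mul_apply, Fin.sum_univ_three] <;>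
        nlinarith [sin_sq_add_cos_sq (θ t)]
    · simp [Matrix.det_fin_three]
      nlinarith [sin_sq_add_cos_sq (θ t)]
  · have : h 0 = 6 := by norm_num [h]
    simp [this, Matrix.mulVec, dotProduct, Fin.sum_univ_three]
    linarith [hx.1, abs_nonneg (x 0)]
  · have : h 1 = -6 := by norm_num [h]
    simp [this, Matrix.mulVec, dotProduct, Fin.sum_univ_three]
    linarith [hx.2, abs_nonneg (x 1)]
  · obtain ⟨h1, h2⟩ := hx
    simp only [Matrix.mulVec, dotProduct, Fin.sum_univ_three, Pi.add_apply, D]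
    simp only [of_apply, cons_val', cons_val, cons_val_zero, cons_val_one, cons_val_fin_one,
      zero_mul, one_mul, add_zero, zero_add, mem_ofPred_eq]
    intro h3
    rcases le_total (3 * (t : ℝ)) 1 with h4 | h4
    · have e1 : θ t = 0 := by simp [θ, max_eq_left (sub_nonpos.2 h4)]
      have e2 : h t = 6 * (1 - 3 * t) := by
        simp [h, max_eq_left (sub_nonneg.2 h4), max_eq_right (show 3 * (t:ℝ) - 2 ≤ 0 by linarith)]
      simp only [e1, cos_zero, sin_zero, neg_zero, zero_mul, one_mul, add_zero, zero_add]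
      constructor <;> linarith
    rcases le_total 2 (3 * (t : ℝ)) with h5 | h5
    · have e1 : θ t = π / 2 := by
        simp [θ, min_eq_left (show 1 ≤ max 0 (3 * (t:ℝ) - 1) from le_max_of_le_right (by linarith))]
      have e2 : h t = -(6 * (3 * t - 2)) := by
        simp [h, max_eq_right (sub_nonpos.2 h4), max_eq_left (sub_nonneg.2 h5)]
      simp only [e1, cos_pi_div_two, sin_pi_div_two, zero_mul, one_mul, add_zero, zero_add,
        neg_mul, abs_neg]
      constructor <;> linarith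
    · have e2 : h t = 0 := by
        simp [h, max_eq_right (sub_nonpos.2 h4), max_eq_right (sub_nonpos.2 h5)]
      set X := cos (θ t) * x 0 + -sin (θ t) * x 1 with hX
      set Y := sin (θ t) * x 0 + cos (θ t) * x 1 with hY
      have l1 : |X| ^ 2 + |Y| ^ 2 = |x 0| ^ 2 + |x 1| ^ 2 := by
        simp only [sq_abs, hX, hY]
        linear_combination (x 0 ^ 2 + x 1 ^ 2) * sin_sq_add_cos_sq (θ t)
      have l2 : |x 0| ^ 2 ≤ (1 / 2) ^ 2 := pow_le_pow_left₀ (abs_nonneg _) (by linarith) 2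
      have l3 : |x 1| ^ 2 ≤ (1 / 2) ^ 2 := pow_le_pow_left₀ (abs_nonneg _) (by linarith) 2
      constructor <;> nlinarith [abs_nonneg X, abs_nonneg Y, sq_nonneg (|X| - |Y|)]

end Pool.Agent.Results.MP_d572aa_gt.Door
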